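import Pool.Agent.Y298.EX.Stm

/-! # Project EX: further steps (`S_EXT`) -/

set_option autoImplicit false

open Set Filter Metric MeasureTheory Topology

namespace Pool.Agent.Y918.EX

open Pool.Agent.Y298.EX
open Pool.Agent.Y298.SH.CD (zz Pd)

theorem pow_sub_le (x y : ℂ) (R : ℝ) (hx : ‖x‖ ≤ R) (hy : ‖y‖ ≤ R) (n : ℕ) :
    ‖y ^ (n + 1) - x ^ (n + 1)‖ ≤ (n + 1) * R ^ n * ‖y - x‖ := by
  have hR : 0 ≤ R := (norm_nonneg x).trans hx
  induction n with
  | zero => simp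
  | succ n ih =>
    have e1 : y ^ (n + 1 + 1) - x ^ (n + 1 + 1) =
        y ^ (n + 1) * (y - x) + (y ^ (n + 1) - x ^ (n + 1)) * x := by ring
    rw [e1]
    refine (norm_add_le _ _).trans ?_
    rw [norm_mul, norm_mul, norm_pow]
    have h1 : ‖y‖ ^ (n + 1) * ‖y - x‖ ≤ R ^ (n + 1) * ‖y - x‖ :=
      mul_le_mul_of_nonneg_right (pow_le_pow_left₀ (norm_nonneg _) hy _) (norm_nonneg _)
    have h2 : ‖y ^ (n + 1) - x ^ (n + 1)‖ * ‖x‖ ≤ ((n + 1) * R ^ n * ‖y - x‖) * R :=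
      mul_le_mul ih hx (norm_nonneg _) (by positivity)
    calc ‖y‖ ^ (n + 1) * ‖y - x‖ + ‖y ^ (n + 1) - x ^ (n + 1)‖ * ‖x‖
        ≤ R ^ (n + 1) * ‖y - x‖ + ((n + 1) * R ^ n * ‖y - x‖) * R := add_le_add h1 h2
      _ = (((n + 1 : ℕ) : ℝ) + 1) * R ^ (n + 1) * ‖y - x‖ := by push_cast; ring

theorem gg_zero (d : ℕ) (a : ℂ → ℂ) (w : ℂ) : gg d a 0 w = w := rfl

theorem gg_succ (d : ℕ) (a : ℂ → ℂ) (n : ℕ) (w : ℂ) :
    gg d a (n + 1) w = gg d a n w ^ d + (w + a (gg d a n w)) := by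
  unfold gg
  rw [Function.iterate_succ_apply']
  rfl

theorem gg_diff (d : ℕ) (a : ℂ → ℂ) (ha : Differentiable ℂ a) (n : ℕ) :
    Differentiable ℂ (gg d a n) := by
  induction n with
  | zero => exact differentiable_id
  | succ n ih =>
    have : gg d a (n + 1) = fun w => gg d a n w ^ d + (w + a (gg d a n w)) := by
      funext w
      exact gg_succ d a n w
    rw [this]
    exact (ih.pow d).add (differentiable_id.add (ha.comp ih))

theorem gg_deriv (d : ℕ) (a : ℂ → ℂ) (ha : Differentiable ℂ a) (n : ℕ) (w : ℂ) :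
    deriv (gg d a (n + 1)) w =
      (d * gg d a n w ^ (d - 1) + deriv a (gg d a n w)) * deriv (gg d a n) w + 1 := by
  have : gg d a (n + 1) = fun w => gg d a n w ^ d + (w + a (gg d a n w)) := by
    funext w
    exact gg_succ d a n w
  rw [this]
  have h1 : HasDerivAt (gg d a n) (deriv (gg d a n) w) w := (gg_diff d a ha n w).hasDerivAt
  have h2 : HasDerivAt (fun w => gg d a n w ^ d)
      (d * gg d a n w ^ (d - 1) * deriv (gg d a n) w) w := h1.pow d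
  have h3 : HasDerivAt (fun w => a (gg d a n w)) (deriv a (gg d a n w) * deriv (gg d a n) w) w :=
    ((ha _).hasDerivAt).comp w h1
  have h4 := h2.add ((hasDerivAt_id w).add h3)
  refine h4.deriv.trans ?_
  ring

theorem ext_main (zsucc : ∀ (d : ℕ) (c : ℂ) (k : ℕ), zz d c (k + 1) = zz d c k ^ d + c)
    (psucc : ∀ (d : ℕ) (c : ℂ) (k : ℕ), Pd d c (k + 1) = d * ‖zz d c k‖ ^ (d - 1) * Pd d c k)
    (pnn : ∀ (d : ℕ) (c : ℂ) (k : ℕ), 0 ≤ Pd d c k) : S_EXT := by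
  intro d c₀ κg s k m a w hd hz hκ hs hs1 ha hw h0 hA hF hbig
  obtain ⟨e, rfl⟩ : ∃ e, d = e + 2 := ⟨d - 2, by omega⟩
  obtain ⟨hF1, hF2⟩ := hF
  have hed : e + 2 - 1 = e + 1 := by omega
  set L : ℝ := LL (e + 2) with hL
  have hLdef : L = ((e : ℝ) + 2) * 3 ^ (e + 1) + 1 := by
    rw [hL, LL, hed]; push_cast; ring
  have h3e : (1 : ℝ) ≤ 3 ^ e := one_le_pow₀ (by norm_num)
  have he0 : (0 : ℝ) ≤ e := Nat.cast_nonneg _
  have hL2 : 2 ≤ L := by
    rw [hLdef, pow_succ]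
    nlinarith
  have hL1 : 1 ≤ L := by linarith
  have hLm : (1 : ℝ) ≤ L ^ m := one_le_pow₀ hL1
  -- the distance of the orbits
  have hdist : ∀ j ≤ m, ‖gg (e + 2) a (k + j) w - zz (e + 2) c₀ (k + j)‖ ≤ 2 * s * L ^ j := by
    intro j
    induction j with
    | zero =>
      intro _
      show ‖gg (e + 2) a k w - zz (e + 2) c₀ k‖ ≤ 2 * s * L ^ 0
      rw [h0, sub_self, norm_zero]
      positivity
    | succ j ih =>
      intro hj
      have h1 := ih (by omega)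
      have h2 : 2 * s * L ^ j ≤ 1 / 2 := by
        have : L ^ j ≤ L ^ m := pow_le_pow_right₀ hL1 (by omega)
        nlinarith
      have hx := hz (k + j)
      have hy : ‖gg (e + 2) a (k + j) w‖ ≤ 3 := by
        have := norm_le_insert' (gg (e + 2) a (k + j) w) (zz (e + 2) c₀ (k + j))
        linarith
      have h3 := pow_sub_le (zz (e + 2) c₀ (k + j)) (gg (e + 2) a (k + j) w) 3 (by linarith) hy
        (e + 1)
      have h4 : ‖a (gg (e + 2) a (k + j) w)‖ ≤ s := ha.le _ (by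
        rw [mem_ball_zero_iff]; linarith)
      have e1 : gg (e + 2) a (k + (j + 1)) w - zz (e + 2) c₀ (k + (j + 1)) =
          (gg (e + 2) a (k + j) w ^ (e + 1 + 1) - zz (e + 2) c₀ (k + j) ^ (e + 1 + 1)) +
            ((w - c₀) + a (gg (e + 2) a (k + j) w)) := by
        rw [← Nat.add_assoc, gg_succ, zsucc]
        ring
      rw [e1]
      refine (norm_add_le _ _).trans ?_
      have h5 := norm_add_le (w - c₀) (a (gg (e + 2) a (k + j) w))
      have h6 : (((e + 1 : ℕ) : ℝ) + 1) * 3 ^ (e + 1) = L - 1 := by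
        rw [hLdef]; push_cast; ring
      rw [h6] at h3
      have h7 : (L - 1) * ‖gg (e + 2) a (k + j) w - zz (e + 2) c₀ (k + j)‖ ≤
          (L - 1) * (2 * s * L ^ j) := mul_le_mul_of_nonneg_left h1 (by linarith)
      have h8 : (1 : ℝ) ≤ L ^ j := one_le_pow₀ hL1
      have h9 : s ≤ s * L ^ j := le_mul_of_one_le_right hs.le h8
      rw [pow_succ L j]
      nlinarith
  have hsmall : ∀ j ≤ m, 2 * s * L ^ j ≤ 1 / 2 := by
    intro j hj
    have : L ^ j ≤ L ^ m := pow_le_pow_right₀ hL1 hj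
    nlinarith
  have hy3 : ∀ j ≤ m, ‖gg (e + 2) a (k + j) w‖ ≤ 5 / 2 := by
    intro j hj
    have h1 := hdist j hj
    have h2 := hsmall j hj
    have hx := hz (k + j)
    have := norm_le_insert' (gg (e + 2) a (k + j) w) (zz (e + 2) c₀ (k + j))
    linarith
  -- the factors
  obtain ⟨q, hq⟩ : ∃ q : ℝ, q = 1 - 1 / (2 * ((m : ℝ) + 1)) := ⟨_, rfl⟩
  have hm0 : (0 : ℝ) < (m : ℝ) + 1 := by positivity
  have hq0 : 0 ≤ q := by
    rw [hq, sub_nonneg, div_le_one (by positivity)]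
    have : (0 : ℝ) ≤ m := Nat.cast_nonneg _
    linarith
  have hfac : ∀ j < m,
      q * (((e + 2 : ℕ) : ℝ) * ‖zz (e + 2) c₀ (k + j)‖ ^ (e + 2 - 1)) ≤
        ‖(((e + 2 : ℕ) : ℂ)) * gg (e + 2) a (k + j) w ^ (e + 2 - 1) +
          deriv a (gg (e + 2) a (k + j) w)‖ ∧
      ‖(((e + 2 : ℕ) : ℂ)) * gg (e + 2) a (k + j) w ^ (e + 2 - 1) +
          deriv a (gg (e + 2) a (k + j) w)‖ ≤ L := by
    intro j hj
    have hF3 := hF2 (k + j) (by omega) (by omega)
    have h1 := hdist j hj.le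
    have h2 := hy3 j hj.le
    have hx := hz (k + j)
    rw [hed] at hF3 ⊢
    obtain ⟨x, hx'⟩ : ∃ x, x = zz (e + 2) c₀ (k + j) := ⟨_, rfl⟩
    obtain ⟨y, hy'⟩ : ∃ y, y = gg (e + 2) a (k + j) w := ⟨_, rfl⟩
    rw [← hx'] at hF3 h1 hx ⊢
    rw [← hy'] at h1 h2 ⊢
    have h4 : ‖deriv a y‖ ≤ s := ha.dle _ (by rw [mem_ball_zero_iff]; linarith)
    constructor
    · have h5 := pow_sub_le x y 3 (by linarith) (by linarith) e
      have h6 : ‖y - x‖ ≤ 2 * s * L ^ m := h1.trans (by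
        have : L ^ j ≤ L ^ m := pow_le_pow_right₀ hL1 hj.le
        nlinarith)
      have hc : ‖(((e + 2 : ℕ) : ℂ))‖ = (e : ℝ) + 2 := by
        rw [Complex.norm_natCast]; push_cast; ring
      have e1 : ((e + 2 : ℕ) : ℂ) * x ^ (e + 1) = (((e + 2 : ℕ) : ℂ) * y ^ (e + 1) + deriv a y) -
          (((e + 2 : ℕ) : ℂ) * (y ^ (e + 1) - x ^ (e + 1)) + deriv a y) := by ring
      have h7 : ((e : ℝ) + 2) * ‖x‖ ^ (e + 1) ≤
          ‖(((e + 2 : ℕ) : ℂ)) * y ^ (e + 1) + deriv a y‖ +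
            (((e : ℝ) + 2) * ‖y ^ (e + 1) - x ^ (e + 1)‖ + s) := by
        have h8 : ‖((e + 2 : ℕ) : ℂ) * x ^ (e + 1)‖ = ((e : ℝ) + 2) * ‖x‖ ^ (e + 1) := by
          rw [norm_mul, hc, norm_pow]
        rw [← h8, e1]
        refine (norm_sub_le _ _).trans ?_
        refine add_le_add le_rfl ((norm_add_le _ _).trans ?_)
        rw [norm_mul, hc]
        exact add_le_add le_rfl h4
      -- the error
      have h9 : ((e : ℝ) + 2) * ‖y ^ (e + 1) - x ^ (e + 1)‖ + s ≤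
          3 * (((e : ℝ) + 2) ^ 2 * 3 ^ e) * (s * L ^ m) := by
        have h10 : ‖y ^ (e + 1) - x ^ (e + 1)‖ ≤ ((e : ℝ) + 2) * 3 ^ e * (2 * s * L ^ m) := by
          refine h5.trans ?_
          refine mul_le_mul ?_ h6 (norm_nonneg _) (by positivity)
          refine mul_le_mul_of_nonneg_right ?_ (by positivity)
          linarith
        have h11 : s ≤ (((e : ℝ) + 2) ^ 2 * 3 ^ e) * (s * L ^ m) := by
          have h12 : s ≤ s * L ^ m := le_mul_of_one_le_right hs.le hLm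
          have h13 : (1 : ℝ) ≤ ((e : ℝ) + 2) ^ 2 * 3 ^ e := by nlinarith
          calc s ≤ s * L ^ m := h12
            _ = 1 * (s * L ^ m) := (one_mul _).symm
            _ ≤ _ := mul_le_mul_of_nonneg_right h13 (by positivity)
        calc ((e : ℝ) + 2) * ‖y ^ (e + 1) - x ^ (e + 1)‖ + s
            ≤ ((e : ℝ) + 2) * (((e : ℝ) + 2) * 3 ^ e * (2 * s * L ^ m)) +
              (((e : ℝ) + 2) ^ 2 * 3 ^ e) * (s * L ^ m) :=
              add_le_add (mul_le_mul_of_nonneg_left h10 (by linarith)) h11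
          _ = _ := by ring
      have h10 : 36 * (((e : ℝ) + 2) ^ 2 * 3 ^ e) * (s * L ^ m) * (3 * ((m : ℝ) + 1)) ≤
          ‖x‖ ^ (e + 1) := by
        refine le_trans (le_of_eq ?_) hF3
        push_cast
        ring
      obtain ⟨D, hD⟩ : ∃ D : ℝ, D = (((e : ℝ) + 2) ^ 2 * 3 ^ e) * (s * L ^ m) := ⟨_, rfl⟩
      have hD0 : 0 ≤ D := by rw [hD]; positivity
      have h11 : 3 * D ≤ 1 / (2 * ((m : ℝ) + 1)) * (((e : ℝ) + 2) * ‖x‖ ^ (e + 1)) := by
        rw [one_div, inv_mul_eq_div, le_div_iff₀ (by positivity)]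
        have h12 : 36 * D * (3 * ((m : ℝ) + 1)) ≤ ‖x‖ ^ (e + 1) := by
          refine le_trans (le_of_eq ?_) h10
          rw [hD]; ring
        have h13 : 0 ≤ ‖x‖ ^ (e + 1) := by positivity
        have h14 : 0 ≤ D * ((m : ℝ) + 1) := by positivity
        nlinarith
      have h12 : ((e : ℝ) + 2) * ‖y ^ (e + 1) - x ^ (e + 1)‖ + s ≤ 3 * D := by
        refine h9.trans (le_of_eq ?_)
        rw [hD]; ring
      rw [hq]
      push_cast at h7 ⊢
      linarith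
    · refine (norm_add_le _ _).trans ?_
      rw [norm_mul, norm_pow, Complex.norm_natCast, hLdef]
      have h5 : ‖y‖ ^ (e + 1) ≤ 3 ^ (e + 1) :=
        pow_le_pow_left₀ (norm_nonneg _) (by linarith) _
      have h6 : ((e + 2 : ℕ) : ℝ) * ‖y‖ ^ (e + 1) ≤ ((e : ℝ) + 2) * 3 ^ (e + 1) := by
        push_cast
        exact mul_le_mul_of_nonneg_left h5 (by linarith)
      linarith
  -- the derivatives
  have hder : ∀ j ≤ m, q ^ j * (κg * Pd (e + 2) c₀ (k + j)) - (L ^ j - 1) ≤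
      ‖deriv (gg (e + 2) a (k + j)) w‖ := by
    intro j
    induction j with
    | zero =>
      intro _
      simpa using hA
    | succ j ih =>
      intro hj
      have h1 := ih (by omega)
      obtain ⟨h2, h3⟩ := hfac j (by omega)
      have h4 : deriv (gg (e + 2) a (k + (j + 1))) w =
          ((((e + 2 : ℕ) : ℂ)) * gg (e + 2) a (k + j) w ^ (e + 2 - 1) +
            deriv a (gg (e + 2) a (k + j) w)) * deriv (gg (e + 2) a (k + j)) w + 1 := by
        rw [← Nat.add_assoc]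
        exact gg_deriv (e + 2) a ha.hol (k + j) w
      have h5 := psucc (e + 2) c₀ (k + j)
      rw [← Nat.add_assoc, h5]
      rw [← Nat.add_assoc] at h4
      rw [h4]
      obtain ⟨Φ, hΦ⟩ : ∃ Φ : ℂ, Φ = (((e + 2 : ℕ) : ℂ)) * gg (e + 2) a (k + j) w ^ (e + 2 - 1) +
            deriv a (gg (e + 2) a (k + j) w) := ⟨_, rfl⟩
      rw [← hΦ] at h2 h3 ⊢
      obtain ⟨X, hX⟩ : ∃ X : ℝ, X = ((e + 2 : ℕ) : ℝ) * ‖zz (e + 2) c₀ (k + j)‖ ^ (e + 2 - 1) :=
        ⟨_, rfl⟩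
      rw [← hX] at h2 ⊢
      obtain ⟨A, hA'⟩ : ∃ A : ℂ, A = deriv (gg (e + 2) a (k + j)) w := ⟨_, rfl⟩
      rw [← hA'] at h1 ⊢
      have h6 : ‖Φ‖ * ‖A‖ - 1 ≤ ‖Φ * A + 1‖ := by
        have := norm_sub_le (Φ * A + 1) 1
        rw [add_sub_cancel_right, norm_mul, norm_one] at this
        linarith
      refine le_trans ?_ h6
      have hP := pnn (e + 2) c₀ (k + j)
      have h7 : ‖Φ‖ * (q ^ j * (κg * Pd (e + 2) c₀ (k + j)) - (L ^ j - 1)) ≤ ‖Φ‖ * ‖A‖ :=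
        mul_le_mul_of_nonneg_left h1 (norm_nonneg _)
      have h8 : q * X * (q ^ j * (κg * Pd (e + 2) c₀ (k + j))) ≤
          ‖Φ‖ * (q ^ j * (κg * Pd (e + 2) c₀ (k + j))) :=
        mul_le_mul_of_nonneg_right h2 (by positivity)
      have h9 : (1 : ℝ) ≤ L ^ j := one_le_pow₀ hL1
      have h10 : ‖Φ‖ * (L ^ j - 1) ≤ L * (L ^ j - 1) :=
        mul_le_mul_of_nonneg_right h3 (by linarith)
      have e2 : q ^ (j + 1) * (κg * (X * Pd (e + 2) c₀ (k + j))) =
          q * X * (q ^ j * (κg * Pd (e + 2) c₀ (k + j))) := by ring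
      rw [e2, pow_succ L j]
      nlinarith
  refine ⟨(hy3 m le_rfl).trans (by norm_num), ?_⟩
  have h1 := hder m le_rfl
  have hqm : 1 / 2 ≤ q ^ m := by
    have h2 := one_add_mul_le_pow (a := -(1 / (2 * ((m : ℝ) + 1)))) (by
      have : 1 / (2 * ((m : ℝ) + 1)) ≤ 1 := by
        rw [div_le_one (by positivity)]
        have : (0 : ℝ) ≤ m := Nat.cast_nonneg _
        linarith
      linarith) m
    have h3 : 1 + (m : ℝ) * -(1 / (2 * ((m : ℝ) + 1))) ≥ 1 / 2 := by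
      have : (m : ℝ) * (1 / (2 * ((m : ℝ) + 1))) ≤ 1 / 2 := by
        rw [mul_one_div, div_le_div_iff₀ (by positivity) (by norm_num)]
        linarith
      linarith
    rw [hq]
    calc (1 : ℝ) / 2 ≤ 1 + (m : ℝ) * -(1 / (2 * ((m : ℝ) + 1))) := h3
      _ ≤ (1 + -(1 / (2 * ((m : ℝ) + 1)))) ^ m := h2
      _ = _ := by rw [← sub_eq_add_neg]
  have hP := pnn (e + 2) c₀ (k + m)
  have h2 : 1 / 2 * (κg * Pd (e + 2) c₀ (k + m)) ≤ q ^ m * (κg * Pd (e + 2) c₀ (k + m)) :=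
    mul_le_mul_of_nonneg_right hqm (by positivity)
  nlinarith

end Pool.Agent.Y918.EX

theorem Pool.Agent.Y918.EX.t : Pool.Agent.Y298.EX.S_EXT :=
  Pool.Agent.Y918.EX.ext_main Pool.Agent.Y298.SH.CD.zz_succ Pool.Agent.Y298.SH.CD.Pd_succ
    Pool.Agent.Y298.SH.CD.Pd_nonneg
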